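import Pool.Agent.V5helper6.RS.MB

/-! Project RS, job LOWM -/

set_option autoImplicit false

open Finset

namespace Pool.Agent.V5helper6.RS

open Pool.Agent.V5helper50.RS

theorem pow_add_le (x s k : ℕ) : (x + s) ^ (k + 1) ≤ x ^ (k + 1) + (k + 1) * s * (x + s) ^ k := by
  induction k with
  | zero => simp
  | succ k ih =>
    have h1 : x * (x + s) ^ k ≤ (x + s) ^ (k + 1) := by
      rw [pow_succ' (x + s) k]
      exact Nat.mul_le_mul_right _ (Nat.le_add_right _ _)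
    calc (x + s) ^ (k + 1 + 1) = x * (x + s) ^ (k + 1) + s * (x + s) ^ (k + 1) := by ring
      _ ≤ x * (x ^ (k + 1) + (k + 1) * s * (x + s) ^ k) + s * (x + s) ^ (k + 1) :=
          Nat.add_le_add_right (Nat.mul_le_mul_left _ ih) _
      _ = x ^ (k + 1 + 1) + (k + 1) * s * (x * (x + s) ^ k) + s * (x + s) ^ (k + 1) := by ring
      _ ≤ x ^ (k + 1 + 1) + (k + 1) * s * (x + s) ^ (k + 1) + s * (x + s) ^ (k + 1) :=
          Nat.add_le_add_right (Nat.add_le_add_left (Nat.mul_le_mul_left _ h1) _) _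
      _ = x ^ (k + 1 + 1) + (k + 1 + 1) * s * (x + s) ^ (k + 1) := by ring

theorem two_pow_bound (k Q x : ℕ) (hx : (k + 1) * Q * 2 ^ k ≤ x) (hQ : Q ≤ x) :
    (x + Q) ^ (k + 1) ≤ 2 * x ^ (k + 1) := by
  refine (pow_add_le x Q k).trans ?_
  have h1 : (x + Q) ^ k ≤ (2 * x) ^ k := Nat.pow_le_pow_left (by omega) k
  calc x ^ (k + 1) + (k + 1) * Q * (x + Q) ^ k ≤ x ^ (k + 1) + (k + 1) * Q * (2 * x) ^ k :=
        Nat.add_le_add_left (Nat.mul_le_mul_left _ h1) _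
    _ = x ^ (k + 1) + ((k + 1) * Q * 2 ^ k) * x ^ k := by rw [mul_pow]; ring
    _ ≤ x ^ (k + 1) + x * x ^ k := Nat.add_le_add_left (Nat.mul_le_mul_right _ hx) _
    _ = 2 * x ^ (k + 1) := by ring

/-- the last coordinate and its shift -/
theorem core (k Q L A u σ r : ℕ) (hQ : 1 ≤ Q) (hr : r < Q) (hA : 4 * A ≤ L ^ (k + 2))
    (hAm : A % Q = σ % Q) (hres : (σ + 1 * r ^ (k + 2)) % Q = u % Q) (hLu : L ^ (k + 2) ≤ u)
    (huL : u < (L + 1) ^ (k + 2)) (hL : 2 * ((k + 2) * Q * 2 ^ (k + 2)) + 4 * Q + 2 ≤ L) :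
    ∃ x, L / 2 + 1 ≤ x ∧ x < L + 1 ∧ x % Q = r ∧ ∃ v < Tk (k + 2) x,
      x ^ (k + 2) + Q * v + A = u := by
  classical
  obtain ⟨Z, hZ⟩ : ∃ Z, Z + A = u := ⟨u - A, Nat.sub_add_cancel (by omega)⟩
  set x₀ := Nat.findGreatest (fun x => x ^ (k + 2) ≤ Z) L with hx₀
  have h1 : x₀ ^ (k + 2) ≤ Z := by
    refine Nat.findGreatest_spec (P := fun x => x ^ (k + 2) ≤ Z) (Nat.zero_le L) ?_
    simp
  have h2 : Z < (x₀ + 1) ^ (k + 2) := by
    by_contra hcon
    rw [not_lt] at hcon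
    have h3 : (x₀ + 1) ^ (k + 2) < (L + 1) ^ (k + 2) := by omega
    have h4 : x₀ + 1 < L + 1 := lt_of_pow_lt_pow_left₀ _ (Nat.zero_le _) h3
    have h5 : x₀ + 1 ≤ x₀ :=
      Nat.le_findGreatest (P := fun x => x ^ (k + 2) ≤ Z) (by omega) hcon
    omega
  have h3 : L / 2 + Q ≤ x₀ := by
    refine Nat.le_findGreatest (P := fun x => x ^ (k + 2) ≤ Z) (by omega) ?_
    have g1 : (L + 2 * Q) ^ (k + 1 + 1) ≤ 2 * L ^ (k + 1 + 1) := by
      refine two_pow_bound (k + 1) (2 * Q) L ?_ (by omega)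
      have : (k + 1 + 1) * (2 * Q) * 2 ^ (k + 1) = (k + 2) * Q * 2 ^ (k + 2) := by ring
      omega
    have g2 : (2 * (L / 2 + Q)) ^ (k + 2) ≤ (L + 2 * Q) ^ (k + 2) :=
      Nat.pow_le_pow_left (by omega) _
    have g3 : 4 * (L / 2 + Q) ^ (k + 2) ≤ (2 * (L / 2 + Q)) ^ (k + 2) := by
      rw [mul_pow]
      refine Nat.mul_le_mul_right _ ?_
      calc 4 = 2 ^ 2 := by norm_num
        _ ≤ 2 ^ (k + 2) := Nat.pow_le_pow_right (by norm_num) (by omega)
    have g4 : (L + 2 * Q) ^ (k + 1 + 1) = (L + 2 * Q) ^ (k + 2) := rfl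
    have g5 : L ^ (k + 1 + 1) = L ^ (k + 2) := rfl
    show (L / 2 + Q) ^ (k + 2) ≤ Z
    omega
  have h4 : x₀ ≤ L := Nat.findGreatest_le L
  have hmod := Nat.div_add_mod (x₀ - r) Q
  have hlt := Nat.mod_lt (x₀ - r) hQ
  set x := r + Q * ((x₀ - r) / Q) with hx
  have hxx₀ : x ≤ x₀ := by omega
  have hx₀x : x₀ + 1 ≤ x + Q := by omega
  have hxQ : x % Q = r := by rw [hx, Nat.add_mul_mod_self_left, Nat.mod_eq_of_lt hr]
  have hxk : x ^ (k + 2) ≤ Z := (Nat.pow_le_pow_left hxx₀ _).trans h1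
  have hdvd : Q ∣ Z - x ^ (k + 2) := by
    rw [← Nat.modEq_iff_dvd' hxk]
    refine Nat.ModEq.add_right_cancel' A ?_
    have e1 : x ≡ r [MOD Q] := by
      show x % Q = r % Q
      rw [hxQ, Nat.mod_eq_of_lt hr]
    have e2 : x ^ (k + 2) + A ≡ r ^ (k + 2) + σ [MOD Q] := Nat.ModEq.add (e1.pow _) hAm
    rw [hZ]
    refine e2.trans ?_
    rw [one_mul, add_comm] at hres
    exact hres
  obtain ⟨v, hv⟩ := hdvd
  have hx1 : L / 2 + 1 ≤ x := by omega
  refine ⟨x, hx1, by omega, hxQ, v, ?_, by omega⟩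
  have hT := Tk_eq (k + 2) x (by omega) (by omega)
  rw [show k + 2 - 1 = k + 1 from rfl] at hT
  have g1 : (x₀ + 1) ^ (k + 2) ≤ (x + Q) ^ (k + 2) := Nat.pow_le_pow_left hx₀x _
  have g2 : (x + Q) ^ (k + 1 + 1) ≤ x ^ (k + 1 + 1) + (k + 1 + 1) * Q * (x + Q) ^ (k + 1) :=
    pow_add_le x Q (k + 1)
  have g3 : (x + Q) ^ (k + 1) ≤ 2 * x ^ (k + 1) := by
    refine two_pow_bound k Q x ?_ (by omega)
    have q1 : (k + 1) * Q * 2 ^ k ≤ (k + 2) * Q * 2 ^ (k + 2) :=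
      Nat.mul_le_mul (Nat.mul_le_mul_right _ (by omega))
        (Nat.pow_le_pow_right (by norm_num) (by omega))
    omega
  have g4 : (k + 1 + 1) * Q * (x + Q) ^ (k + 1) ≤ Q * (2 * (k + 2) * x ^ (k + 1)) := by
    calc (k + 1 + 1) * Q * (x + Q) ^ (k + 1) ≤ (k + 1 + 1) * Q * (2 * x ^ (k + 1)) :=
          Nat.mul_le_mul_left _ g3
      _ = Q * (2 * (k + 2) * x ^ (k + 1)) := by ring
  have g5 : Q * (2 * (k + 2) * x ^ (k + 1)) ≤ Q * Tk (k + 2) x := by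
    rw [hT]
    exact Nat.mul_le_mul_left _ (Nat.mul_le_mul_right _ (by omega))
  have g6 : (x + Q) ^ (k + 1 + 1) = (x + Q) ^ (k + 2) := rfl
  have g7 : x ^ (k + 1 + 1) = x ^ (k + 2) := rfl
  have g8 : Q * v < Q * Tk (k + 2) x := by omega
  exact lt_of_mul_lt_mul_left g8 (Nat.zero_le _)

theorem a_mod (k Q : ℕ) (t : ℕ → ℕ) {j : ℕ} (y : Fin j → ℕ) :
    (∑ l, a k Q t (y l)) % Q = (∑ l, y l ^ k) % Q := by
  rw [Finset.sum_nat_mod, Finset.sum_nat_mod (s := univ) (f := fun l => y l ^ k)]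
  congr 1
  refine Finset.sum_congr rfl fun l _ => ?_
  unfold a
  rw [Nat.add_mul_mod_self_left]

theorem a_bound (k Q d e L : ℕ) (hd : 1 ≤ d) (t : ℕ → ℕ) (ht : ∀ y, t y < Tk (k + 2) y)
    (he : 8 * d * e ≤ L) (hL : 32 * d * (k + 2) * Q ≤ L) (y : Fin (d - 1) → ℕ)
    (hy : ∀ l, e < y l ∧ y l ≤ 2 * e) :
    4 * ∑ l, a (k + 2) Q t (y l) ≤ L ^ (k + 2) := by
  have h1 : ∀ l, a (k + 2) Q t (y l) ≤ (2 * e) ^ (k + 2) + Q * (4 * (k + 2) * (2 * e) ^ (k + 1)) := by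
    intro l
    obtain ⟨q1, q2⟩ := hy l
    have hT := Tk_eq (k + 2) (y l) (by omega) (by omega)
    rw [show k + 2 - 1 = k + 1 from rfl] at hT
    have g1 : y l ^ (k + 2) ≤ (2 * e) ^ (k + 2) := Nat.pow_le_pow_left q2 _
    have g2 : y l ^ (k + 1) ≤ (2 * e) ^ (k + 1) := Nat.pow_le_pow_left q2 _
    have g3 : t (y l) ≤ 4 * (k + 2) * (2 * e) ^ (k + 1) := by
      refine (ht (y l)).le.trans ?_
      rw [hT]
      exact Nat.mul_le_mul_left _ g2
    unfold a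
    exact Nat.add_le_add g1 (Nat.mul_le_mul_left _ g3)
  have h2 : ∑ l, a (k + 2) Q t (y l) ≤
      d * ((2 * e) ^ (k + 2) + Q * (4 * (k + 2) * (2 * e) ^ (k + 1))) := by
    refine (Finset.sum_le_card_nsmul _ _ _ fun l _ => h1 l).trans ?_
    rw [Finset.card_univ, Fintype.card_fin, smul_eq_mul]
    exact Nat.mul_le_mul_right _ (Nat.sub_le _ _)
  have h3 : 8 * d * (2 * e) ^ (k + 2) ≤ L ^ (k + 2) := by
    have g1 : (4 * d * (2 * e)) ^ (k + 2) ≤ L ^ (k + 2) := by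
      refine Nat.pow_le_pow_left ?_ _
      calc 4 * d * (2 * e) = 8 * d * e := by ring
        _ ≤ L := he
    refine le_trans ?_ g1
    rw [mul_pow (4 * d) (2 * e)]
    refine Nat.mul_le_mul_right _ ?_
    calc 8 * d ≤ (4 * d) ^ 2 := by nlinarith
      _ ≤ (4 * d) ^ (k + 2) := Nat.pow_le_pow_right (by omega) (by omega)
  have h4 : 8 * d * (Q * (4 * (k + 2) * (2 * e) ^ (k + 1))) ≤ L ^ (k + 2) := by
    have g1 : 2 * e ≤ L := by nlinarith
    have g2 : (2 * e) ^ (k + 1) ≤ L ^ (k + 1) := Nat.pow_le_pow_left g1 _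
    calc 8 * d * (Q * (4 * (k + 2) * (2 * e) ^ (k + 1))) =
          (32 * d * (k + 2) * Q) * (2 * e) ^ (k + 1) := by ring
      _ ≤ L * L ^ (k + 1) := Nat.mul_le_mul hL g2
      _ = L ^ (k + 2) := by ring
  have h5 : 8 * (d * ((2 * e) ^ (k + 2) + Q * (4 * (k + 2) * (2 * e) ^ (k + 1)))) =
      8 * d * (2 * e) ^ (k + 2) + 8 * d * (Q * (4 * (k + 2) * (2 * e) ^ (k + 1))) := by ring
  omega

theorem t_LOWM : S_LOWM := by
  intro hRES k d hk hd
  obtain ⟨k, rfl⟩ : ∃ k', k = k' + 2 := ⟨k - 2, by omega⟩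
  have hdr' : (0 : ℝ) < d := by exact_mod_cast (show 0 < d by omega)
  refine ⟨1 / (4 * (k + 2) * (16 * d) ^ (d - 1)), by positivity, fun Q hQ => ?_⟩
  refine ⟨32 * d * (k + 2) * Q + (2 * ((k + 2) * Q * 2 ^ (k + 2)) + 4 * Q + 2) + 16 * d * Q,
    by omega, fun L u hL hLu huL t ht => ?_⟩
  classical
  have hd1 : 1 ≤ d := by omega
  have hL1 : 1 ≤ L := by omega
  set e := L / (8 * d) with he
  have he8 : 8 * d * e ≤ L := Nat.mul_div_le L (8 * d)
  set I := Ico (L / 2 + 1) (L + 1) with hI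
  set Ys := Fintype.piFinset (fun _ : Fin (d - 1) => Ioc e (2 * e)) with hYs
  -- counting in natural numbers
  set Nx : ℕ → ℕ := fun x => ∑ v ∈ range (Tk (k + 2) x), (if x ^ (k + 2) + Q * v ≤ u then
    Rl (k + 2) Q t e (d - 1) (u - (x ^ (k + 2) + Q * v)) else 0) with hNx
  set E : ℕ → (Fin (d - 1) → ℕ) → Prop := fun x y =>
    ∃ v < Tk (k + 2) x, x ^ (k + 2) + Q * v + ∑ l, a (k + 2) Q t (y l) = u with hE
  have h1 : ∀ x, ∑ y ∈ Ys, (if E x y then 1 else 0) ≤ Nx x := by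
    intro x
    have e1 : Nx x = ∑ y ∈ Ys, ∑ v ∈ range (Tk (k + 2) x),
        (if x ^ (k + 2) + Q * v ≤ u ∧ ∑ l, a (k + 2) Q t (y l) = u - (x ^ (k + 2) + Q * v)
          then 1 else 0) := by
      rw [Finset.sum_comm]
      refine Finset.sum_congr rfl fun v _ => ?_
      by_cases h : x ^ (k + 2) + Q * v ≤ u
      · rw [if_pos h]
        simp only [h, true_and]
        rw [← Finset.card_filter]
        rfl
      · rw [if_neg h]
        simp only [h, false_and, if_false, Finset.sum_const_zero]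
    rw [e1]
    refine Finset.sum_le_sum fun y _ => ?_
    by_cases h : E x y
    · rw [if_pos h]
      obtain ⟨v, hv, hv2⟩ := h
      refine le_trans ?_ (Finset.single_le_sum (f := fun v => if x ^ (k + 2) + Q * v ≤ u ∧
        ∑ l, a (k + 2) Q t (y l) = u - (x ^ (k + 2) + Q * v) then 1 else 0)
        (fun _ _ => Nat.zero_le _) (Finset.mem_range.2 hv))
      rw [if_pos ⟨by omega, by omega⟩]
    · rw [if_neg h]
      exact Nat.zero_le _
  have h2 : ∀ y ∈ Ys, Gr (k + 2) Q 1 u y ≤ (I.filter (fun x => E x y)).card := by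
    intro y hy
    have hy' : ∀ l, e < y l ∧ y l ≤ 2 * e := by
      intro l
      exact Finset.mem_Ioc.1 (Fintype.mem_piFinset.1 hy l)
    have hA := a_bound k Q d e L hd1 t ht he8 (by omega) y hy'
    unfold Gr
    refine Finset.card_le_card_of_surjOn (fun x => x % Q) ?_
    intro r hr
    simp only [Finset.coe_filter, Finset.mem_range, Set.mem_ofPred_eq] at hr
    obtain ⟨x, g1, g2, g3, g4⟩ := core k Q L (∑ l, a (k + 2) Q t (y l)) u (∑ l, y l ^ (k + 2)) r hQ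
      hr.1 hA (a_mod (k + 2) Q t y) hr.2 hLu huL (by omega)
    refine ⟨x, ?_, g3⟩
    simp only [Finset.coe_filter, Set.mem_ofPred_eq, hI, Finset.mem_Ico]
    exact ⟨⟨g1, g2⟩, g4⟩
  have h3 : (e / Q) ^ (d - 1) * M (k + 2) Q d u ≤ ∑ x ∈ I, Nx x := by
    have g1 := (hRES Q (d - 1) (fun y => Gr (k + 2) Q 1 u y) hQ).2 e
    simp only [Gr_mod] at g1
    rw [sum_Gr, Nat.sub_add_cancel hd1] at g1
    refine g1.trans ((Finset.sum_le_sum h2).trans ?_)
    have g2 : ∑ y ∈ Ys, (I.filter (fun x => E x y)).card =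
        ∑ x ∈ I, ∑ y ∈ Ys, (if E x y then 1 else 0) := by
      rw [Finset.sum_comm]
      exact Finset.sum_congr rfl fun y _ => Finset.card_filter _ _
    rw [g2]
    exact Finset.sum_le_sum fun x _ => h1 x
  -- real numbers
  have hLr : (0 : ℝ) < L := by exact_mod_cast hL1
  have hQr : (0 : ℝ) < Q := by exact_mod_cast hQ
  have hdr : (0 : ℝ) < d := by exact_mod_cast hd1
  have h4 : (L : ℝ) / (16 * d * Q) ≤ ((e / Q : ℕ) : ℝ) := by
    have g1 : e / Q = L / (8 * d * Q) := by rw [he, Nat.div_div_eq_div_mul]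
    have g2 : (L : ℝ) / (8 * d * Q) < ((L / (8 * d * Q) : ℕ) : ℝ) + 1 := by
      have hpos : 0 < 8 * d * Q := Nat.mul_pos (by omega) hQ
      rw [div_lt_iff₀ (by positivity)]
      have := Nat.lt_div_mul_add hpos (a := L)
      have q : L < (L / (8 * d * Q) + 1) * (8 * d * Q) := by
        rw [add_mul, one_mul]
        exact this
      exact_mod_cast q
    have g3 : (1 : ℝ) ≤ L / (16 * d * Q) := by
      rw [le_div_iff₀ (by positivity), one_mul]
      have : 16 * d * Q ≤ L := by omega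
      exact_mod_cast this
    have g4 : (L : ℝ) / (8 * d * Q) = 2 * (L / (16 * d * Q)) := by
      field_simp
      ring
    rw [g1]
    linarith
  have h5 : ((L : ℝ) / (16 * d * Q)) ^ (d - 1) * M (k + 2) Q d u ≤ ∑ x ∈ I, (Nx x : ℝ) := by
    have g1 : (((e / Q : ℕ) : ℝ)) ^ (d - 1) * M (k + 2) Q d u ≤ ∑ x ∈ I, (Nx x : ℝ) := by
      exact_mod_cast h3
    refine le_trans ?_ g1
    exact mul_le_mul_of_nonneg_right (pow_le_pow_left₀ (by positivity) h4 _) (Nat.cast_nonneg _)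
  have h6 : (∑ x ∈ I, (Nx x : ℝ)) / (4 * (k + 2) * (L : ℝ) ^ (k + 1)) ≤
      ∑ x ∈ I, (∑ v ∈ range (Tk (k + 2) x), (if x ^ (k + 2) + Q * v ≤ u then
        (Rl (k + 2) Q t e (d - 1) (u - (x ^ (k + 2) + Q * v)) : ℝ) else 0)) / Tk (k + 2) x := by
    rw [Finset.sum_div]
    refine Finset.sum_le_sum fun x hx => ?_
    rw [hI, Finset.mem_Ico] at hx
    have g1 : (Nx x : ℝ) = ∑ v ∈ range (Tk (k + 2) x), (if x ^ (k + 2) + Q * v ≤ u then
        (Rl (k + 2) Q t e (d - 1) (u - (x ^ (k + 2) + Q * v)) : ℝ) else 0) := by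
      simp only [hNx]
      push_cast
      rfl
    rw [← g1]
    have hT := Tk_eq (k + 2) x (by omega) (by omega)
    rw [show k + 2 - 1 = k + 1 from rfl] at hT
    have g2 : Tk (k + 2) x ≤ 4 * (k + 2) * L ^ (k + 1) := by
      rw [hT]
      exact Nat.mul_le_mul_left _ (Nat.pow_le_pow_left (by omega) _)
    have g3 : (Tk (k + 2) x : ℝ) ≤ 4 * (k + 2) * (L : ℝ) ^ (k + 1) := by exact_mod_cast g2
    have g4 : (0 : ℝ) < Tk (k + 2) x := by exact_mod_cast Tk_pos (k + 2) x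
    exact div_le_div_of_nonneg_left (Nat.cast_nonneg _) g4 g3
  refine le_trans ?_ h6
  refine le_trans ?_ (div_le_div_of_nonneg_right h5 (by positivity))
  apply le_of_eq
  obtain ⟨d', rfl⟩ : ∃ d', d = d' + 1 := ⟨d - 1, by omega⟩
  simp only [Nat.add_sub_cancel, div_pow, mul_pow]
  push_cast
  field_simp
  ring

end Pool.Agent.V5helper6.RS
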