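import Pool.Agent.V5helper50.RS.Stm

/-! Project RS, job MB -/

set_option autoImplicit false

open Finset

namespace Pool.Agent.V5helper6.RS

open Pool.Agent.V5helper50.RS

/-- the number of the residues which are possible for the largest coordinate -/
def Gr (k Q i u : ℕ) {j : ℕ} (y : Fin j → ℕ) : ℕ :=
  ((range Q).filter (fun r => (∑ l, y l ^ k + i * r ^ k) % Q = u % Q)).card

theorem pow_sum_mod (k Q : ℕ) {j : ℕ} (y : Fin j → ℕ) :
    (∑ l, (y l % Q) ^ k) % Q = (∑ l, y l ^ k) % Q := by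
  rw [Finset.sum_nat_mod, Finset.sum_nat_mod (s := univ) (f := fun l => y l ^ k)]
  congr 1
  exact Finset.sum_congr rfl fun l _ => (Nat.pow_mod _ _ _).symm

theorem res_mod (k Q i r : ℕ) {j : ℕ} (y : Fin j → ℕ) :
    (∑ l, (y l % Q) ^ k + i * r ^ k) % Q = (∑ l, y l ^ k + i * r ^ k) % Q := by
  rw [Nat.add_mod, pow_sum_mod, ← Nat.add_mod]

theorem Gr_mod (k Q i u : ℕ) {j : ℕ} (y : Fin j → ℕ) :
    Gr k Q i u (fun l => y l % Q) = Gr k Q i u y := by
  unfold Gr
  simp only [res_mod]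

theorem Gr_le (k Q i u : ℕ) {j : ℕ} (y : Fin j → ℕ) : Gr k Q i u y ≤ Q := by
  unfold Gr
  exact (Finset.card_filter_le _ _).trans (by rw [card_range])

theorem sum_Gr (k Q j u : ℕ) :
    ∑ y ∈ Fintype.piFinset (fun _ : Fin j => range Q), Gr k Q 1 u y = M k Q (j + 1) u := by
  unfold Gr M
  rw [← Finset.card_sigma]
  refine Finset.card_nbij' (fun p => Fin.cons p.2 p.1) (fun x => ⟨Fin.tail x, x 0⟩) ?_ ?_ ?_ ?_
  · rintro ⟨y, r⟩ h
    simp only [Finset.coe_sigma, Set.mem_sigma_iff, Finset.mem_coe, Finset.mem_filter,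
      Fintype.mem_piFinset, Finset.mem_range] at h
    simp only [Finset.mem_coe, Finset.mem_filter, Fintype.mem_piFinset, Finset.mem_range]
    refine ⟨fun l => ?_, ?_⟩
    · refine Fin.cases ?_ (fun l => ?_) l
      · simpa using h.2.1
      · simpa using h.1 l
    · rw [Fin.sum_univ_succ]
      simp only [Fin.cons_zero, Fin.cons_succ]
      rw [← h.2.2]
      congr 1
      ring
  · intro x h
    simp only [Finset.mem_coe, Finset.mem_filter, Fintype.mem_piFinset, Finset.mem_range] at h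
    simp only [Finset.coe_sigma, Set.mem_sigma_iff, Finset.mem_coe, Finset.mem_filter,
      Fintype.mem_piFinset, Finset.mem_range]
    refine ⟨fun l => h.1 l.succ, h.1 0, ?_⟩
    rw [← h.2, Fin.sum_univ_succ]
    congr 1
    simp only [Fin.tail]
    ring
  · rintro ⟨y, r⟩ _
    simp
  · intro x _
    simp

/-- the threshold -/
def L0 (k Q j : ℕ) : ℕ := j * (4 * k * Q) ^ k + j * Q * (1 + 4 * k * (4 * k * Q) ^ (k - 1)) + 1 + Q

theorem Tk_le (k x : ℕ) : Tk k x ≤ 1 + 4 * k * x ^ (k - 1) :=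
  max_le (Nat.le_add_right _ _) (Nat.le_add_left _ _)

theorem Tk_eq (k x : ℕ) (hk : 1 ≤ k) (hx : 1 ≤ x) : Tk k x = 4 * k * x ^ (k - 1) := by
  refine max_eq_right ?_
  have := Nat.one_le_pow (k - 1) x hx
  nlinarith

theorem range_of_mem {k Q j u i x L : ℕ} (hk : 2 ≤ k) (hQ : 1 ≤ Q) (hi : 1 ≤ i) (hij : i ≤ j)
    (y : Fin (j - i) → ℕ) (hy : ∀ l, y l < x) (h1 : ∑ l, y l ^ k + i * x ^ k ≤ u)
    (h2 : u < ∑ l, y l ^ k + i * x ^ k + j * Q * Tk k x) (hLu : L ^ k ≤ u)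
    (huL : u < (L + 1) ^ k) (hL0 : L0 k Q j ≤ L) :
    1 ≤ x ∧ x ≤ L ∧ L ^ k ≤ j * L * Tk k x := by
  have hxL : x ≤ L := by
    by_contra hcon
    push Not at hcon
    have h3 : (L + 1) ^ k ≤ x ^ k := Nat.pow_le_pow_left hcon k
    have h4 : x ^ k ≤ i * x ^ k := Nat.le_mul_of_pos_left _ hi
    omega
  have hsum : ∑ l, y l ^ k + i * x ^ k ≤ j * x ^ k := by
    have h3 : ∑ l, y l ^ k ≤ (j - i) * x ^ k := by
      calc ∑ l, y l ^ k ≤ ∑ _l : Fin (j - i), x ^ k :=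
            Finset.sum_le_sum fun l _ => Nat.pow_le_pow_left (hy l).le k
        _ = (j - i) * x ^ k := by simp
    calc ∑ l, y l ^ k + i * x ^ k ≤ (j - i) * x ^ k + i * x ^ k := Nat.add_le_add_right h3 _
      _ = j * x ^ k := by rw [← add_mul, Nat.sub_add_cancel hij]
  have hL1 : 1 ≤ L := by unfold L0 at hL0; omega
  have hx4 : 4 * k * Q ≤ x := by
    by_contra hcon
    push Not at hcon
    have h3 : x ^ k ≤ (4 * k * Q) ^ k := Nat.pow_le_pow_left hcon.le k
    have h4 : x ^ (k - 1) ≤ (4 * k * Q) ^ (k - 1) := Nat.pow_le_pow_left hcon.le (k - 1)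
    have h5 : Tk k x ≤ 1 + 4 * k * (4 * k * Q) ^ (k - 1) :=
      (Tk_le k x).trans (Nat.add_le_add_left (Nat.mul_le_mul_left _ h4) _)
    have h6 : j * x ^ k ≤ j * (4 * k * Q) ^ k := Nat.mul_le_mul_left _ h3
    have h7 : j * Q * Tk k x ≤ j * Q * (1 + 4 * k * (4 * k * Q) ^ (k - 1)) :=
      Nat.mul_le_mul_left _ h5
    have h8 : L ≤ L ^ k := Nat.le_self_pow (by omega) L
    unfold L0 at hL0
    omega
  have hx1 : 1 ≤ x := by
    have : 1 ≤ 4 * k * Q := Nat.mul_pos (by omega) hQ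
    omega
  refine ⟨hx1, hxL, ?_⟩
  have hT := Tk_eq k x (by omega) hx1
  obtain ⟨k', rfl⟩ : ∃ k', k = k' + 1 := ⟨k - 1, by omega⟩
  rw [Nat.add_sub_cancel] at hT
  have hQT : Q * Tk (k' + 1) x ≤ x ^ (k' + 1) := by
    rw [hT]
    calc Q * (4 * (k' + 1) * x ^ k') = (4 * (k' + 1) * Q) * x ^ k' := by ring
      _ ≤ x * x ^ k' := Nat.mul_le_mul_right _ hx4
      _ = x ^ (k' + 1) := by ring
  have h3 : j * Q * Tk (k' + 1) x ≤ j * x ^ (k' + 1) := by
    rw [mul_assoc]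
    exact Nat.mul_le_mul_left _ hQT
  have h4 : L ^ (k' + 1) ≤ 2 * (j * x ^ (k' + 1)) := by omega
  calc L ^ (k' + 1) ≤ 2 * (j * x ^ (k' + 1)) := h4
    _ = j * x * (2 * x ^ k') := by ring
    _ ≤ j * L * (4 * (k' + 1) * x ^ k') := by
        refine Nat.mul_le_mul (Nat.mul_le_mul_left _ hxL) (Nat.mul_le_mul_right _ (by omega))
    _ = j * L * Tk (k' + 1) x := by rw [hT]

/-- counting the pairs `(x, y)` -/
theorem sum_w_le (hINT : S_INT) {k Q j u i L : ℕ} (n : ℕ) (hk : 2 ≤ k) (hQ : 1 ≤ Q) (hi : 1 ≤ i)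
    (hij : i ≤ j) (hLu : L ^ k ≤ u) (huL : u < (L + 1) ^ k) (hL0 : L0 k Q j ≤ L) :
    ∑ x ∈ range n, w k Q j u i x ≤
      (4 * j + 1) * ∑ y ∈ Fintype.piFinset (fun _ : Fin (j - i) => range (L + 1)),
        Gr k Q i u y := by
  classical
  set P : ℕ → (Fin (j - i) → ℕ) → Prop := fun x y =>
    (1 ≤ x ∧ i * x ^ k ≤ u - ∑ l, y l ^ k ∧ u - ∑ l, y l ^ k < i * x ^ k + j * Q * Tk k x) ∧
      (∑ l, y l ^ k + i * x ^ k) % Q = u % Q with hP
  have h1 : ∀ x, w k Q j u i x ≤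
      ∑ y ∈ Fintype.piFinset (fun _ : Fin (j - i) => range (L + 1)), if P x y then 1 else 0 := by
    intro x
    rw [← Finset.card_filter]
    unfold w
    refine Finset.card_le_card fun y hy => ?_
    simp only [Finset.mem_filter, Fintype.mem_piFinset, Finset.mem_range] at hy ⊢
    obtain ⟨hy1, hy2, hy3, hy4⟩ := hy
    obtain ⟨g1, g2, -⟩ := range_of_mem hk hQ hi hij y hy1 hy3 hy4 hLu huL hL0
    refine ⟨fun l => by have := hy1 l; omega, ⟨g1, by omega, by omega⟩, hy2⟩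
  refine (Finset.sum_le_sum fun x _ => h1 x).trans ?_
  rw [Finset.sum_comm, Finset.mul_sum]
  refine Finset.sum_le_sum fun y _ => ?_
  rw [← Finset.card_filter]
  have h2 : ∀ x ∈ (range n).filter (fun x => P x y),
      x % Q ∈ (range Q).filter (fun r => (∑ l, y l ^ k + i * r ^ k) % Q = u % Q) := by
    intro x hx
    simp only [Finset.mem_filter, Finset.mem_range] at hx ⊢
    refine ⟨Nat.mod_lt _ hQ, ?_⟩
    rw [← hx.2.2, Nat.add_mod, Nat.mul_mod, ← Nat.pow_mod, ← Nat.mul_mod, ← Nat.add_mod]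
  rw [Finset.card_eq_sum_card_fiberwise h2]
  have h3 : (4 * j + 1) * Gr k Q i u y =
      ∑ _r ∈ (range Q).filter (fun r => (∑ l, y l ^ k + i * r ^ k) % Q = u % Q), (4 * j + 1) := by
    rw [Finset.sum_const, smul_eq_mul, mul_comm]
    rfl
  rw [h3]
  refine Finset.sum_le_sum fun r _ => ?_
  refine (Finset.card_le_card ?_).trans
    (hINT k Q j i (u - ∑ l, y l ^ k) n r hk hQ (hi.trans hij) hi)
  intro x hx
  simp only [Finset.mem_filter, Finset.mem_range] at hx ⊢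
  exact ⟨hx.1.1, hx.1.2.1.1, hx.1.2.1.2.1, hx.1.2.1.2.2, hx.2⟩

theorem t_MB : S_MB := by
  intro hINT hRES k j hk hj
  refine ⟨j ^ 2 * (4 * j + 1) * 3 ^ (j - 1), by positivity, fun Q hQ => ?_⟩
  refine ⟨j * 4 ^ j * (4 * j + 1) * Q, L0 k Q j, by positivity, by unfold L0; omega,
    fun L u n hL hLu huL => ?_⟩
  have hL1 : 1 ≤ L := by unfold L0 at hL; omega
  have hLQ : Q ≤ L := by unfold L0 at hL; omega
  have hLr : (1 : ℝ) ≤ L := by exact_mod_cast hL1
  have hL0r : (0 : ℝ) < L := by linarith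
  have hQr : (1 : ℝ) ≤ Q := by exact_mod_cast hQ
  have hLQr : (Q : ℝ) ≤ L := by exact_mod_cast hLQ
  have hjr : (1 : ℝ) ≤ j := by exact_mod_cast hj
  set κ : ℝ := j * L / (L : ℝ) ^ k with hκ
  have hκ0 : 0 ≤ κ := by positivity
  -- each term
  have h1 : ∀ x, ∀ i ∈ Icc 1 j, (j.choose i : ℝ) * (w k Q j u i x : ℝ) / Tk k x ≤
      (j.choose i : ℝ) * (w k Q j u i x : ℝ) * κ := by
    intro x i hi
    obtain ⟨hi1, hi2⟩ := Finset.mem_Icc.1 hi
    have hT : (0 : ℝ) < Tk k x := by exact_mod_cast Tk_pos k x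
    rcases Nat.eq_zero_or_pos (w k Q j u i x) with h0 | h0
    · rw [h0]; simp
    · obtain ⟨y, hy⟩ := Finset.card_pos.1 h0
      simp only [Finset.mem_filter, Fintype.mem_piFinset, Finset.mem_range] at hy
      obtain ⟨hy1, hy2, hy3, hy4⟩ := hy
      obtain ⟨-, -, g3⟩ := range_of_mem hk hQ hi1 hi2 y hy1 hy3 hy4 hLu huL hL
      have g3r : (L : ℝ) ^ k ≤ j * L * Tk k x := by exact_mod_cast g3
      rw [div_eq_mul_inv]
      refine mul_le_mul_of_nonneg_left ?_ (by positivity)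
      rw [hκ, inv_eq_one_div, div_le_div_iff₀ hT (by positivity)]
      linarith
  have h2 : ∑ x ∈ range n, m k Q j u x ≤
      ∑ i ∈ Icc 1 j, (j.choose i : ℝ) * ((∑ x ∈ range n, w k Q j u i x : ℕ) : ℝ) * κ := by
    have : ∀ x, m k Q j u x ≤ ∑ i ∈ Icc 1 j, (j.choose i : ℝ) * (w k Q j u i x : ℝ) * κ := by
      intro x
      unfold m
      rw [Finset.sum_div]
      exact Finset.sum_le_sum (h1 x)
    refine (Finset.sum_le_sum fun x _ => this x).trans (le_of_eq ?_)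
    rw [Finset.sum_comm]
    refine Finset.sum_congr rfl fun i _ => ?_
    rw [Nat.cast_sum, ← Finset.sum_mul, ← Finset.mul_sum]
  -- the sums over `x`
  set A : ℝ := (4 * j + 1) * (3 * L / Q) ^ (j - 1) * M k Q j u with hA
  have hA0 : 0 ≤ A := by positivity
  set D : ℝ := (4 * j + 1) * Q * (2 * L) ^ j / (L : ℝ) ^ 2 with hD
  have hD0 : 0 ≤ D := by positivity
  have h3 : ∀ i ∈ Icc 1 j, ((∑ x ∈ range n, w k Q j u i x : ℕ) : ℝ) ≤
      (if i = 1 then A else 0) + D := by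
    intro i hi
    obtain ⟨hi1, hi2⟩ := Finset.mem_Icc.1 hi
    have h4 := sum_w_le hINT n hk hQ hi1 hi2 hLu huL hL
    rcases eq_or_ne i 1 with rfl | hne
    · rw [if_pos rfl]
      have h5 := (hRES Q (j - 1) (fun y => Gr k Q 1 u y) hQ).1 (L + 1)
      simp only [Gr_mod] at h5
      rw [sum_Gr, Nat.sub_add_cancel hj] at h5
      have h6 : ((∑ x ∈ range n, w k Q j u 1 x : ℕ) : ℝ) ≤
          (4 * j + 1) * ((((L + 1) / Q : ℕ) + 1) ^ (j - 1) * M k Q j u) := by
        exact_mod_cast h4.trans (Nat.mul_le_mul_left _ h5)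
      have h7 : (((L + 1) / Q : ℕ) : ℝ) + 1 ≤ 3 * L / Q := by
        have := Nat.cast_div_le (α := ℝ) (m := L + 1) (n := Q)
        refine (add_le_add_left this 1).trans ?_
        rw [div_add_one (by positivity), div_le_div_iff_of_pos_right (by positivity)]
        push_cast
        linarith
      have h8 : ((((L + 1) / Q : ℕ) : ℝ) + 1) ^ (j - 1) ≤ (3 * L / Q) ^ (j - 1) :=
        pow_le_pow_left₀ (by positivity) h7 _
      have h9 : (4 * (j : ℝ) + 1) * (((((L + 1) / Q : ℕ) : ℝ) + 1) ^ (j - 1) * M k Q j u) ≤ A := by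
        rw [hA, mul_assoc]
        refine mul_le_mul_of_nonneg_left ?_ (by positivity)
        exact mul_le_mul_of_nonneg_right h8 (Nat.cast_nonneg _)
      linarith
    · rw [if_neg hne, zero_add]
      have hi3 : 2 ≤ i := by omega
      have h5 : ∑ y ∈ Fintype.piFinset (fun _ : Fin (j - i) => range (L + 1)), Gr k Q i u y ≤
          (L + 1) ^ (j - i) * Q := by
        refine (Finset.sum_le_card_nsmul _ _ Q fun y _ => Gr_le k Q i u y).trans (le_of_eq ?_)
        rw [Fintype.card_piFinset, smul_eq_mul]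
        simp
      have h6 : ((∑ x ∈ range n, w k Q j u i x : ℕ) : ℝ) ≤
          (4 * j + 1) * ((L + 1) ^ (j - i) * Q) := by
        exact_mod_cast h4.trans (Nat.mul_le_mul_left _ h5)
      refine h6.trans ?_
      rw [hD, le_div_iff₀ (by positivity)]
      have h7 : ((L : ℝ) + 1) ^ (j - i) ≤ (2 * L) ^ (j - i) :=
        pow_le_pow_left₀ (by positivity) (by linarith) _
      have h8 : (L : ℝ) ^ 2 ≤ (2 * L) ^ i := by
        calc (L : ℝ) ^ 2 ≤ (2 * L) ^ 2 := pow_le_pow_left₀ (by positivity) (by linarith) _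
          _ ≤ (2 * L) ^ i := pow_le_pow_right₀ (by linarith) hi3
      have h9 : ((L : ℝ) + 1) ^ (j - i) * (L : ℝ) ^ 2 ≤ (2 * L) ^ j := by
        calc ((L : ℝ) + 1) ^ (j - i) * (L : ℝ) ^ 2 ≤ (2 * L) ^ (j - i) * (2 * L) ^ i :=
              mul_le_mul h7 h8 (by positivity) (by positivity)
          _ = (2 * L) ^ j := by rw [← pow_add, Nat.sub_add_cancel hi2]
      calc (4 * (j : ℝ) + 1) * (((L : ℝ) + 1) ^ (j - i) * Q) * (L : ℝ) ^ 2
          = (4 * (j : ℝ) + 1) * (Q : ℝ) * (((L : ℝ) + 1) ^ (j - i) * (L : ℝ) ^ 2) := by ring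
        _ ≤ (4 * (j : ℝ) + 1) * (Q : ℝ) * (2 * (L : ℝ)) ^ j :=
          mul_le_mul_of_nonneg_left h9 (by positivity)
  have h4 : ∑ i ∈ Icc 1 j, (j.choose i : ℝ) * ((∑ x ∈ range n, w k Q j u i x : ℕ) : ℝ) * κ ≤
      (j * A + 2 ^ j * D) * κ := by
    rw [← Finset.sum_mul]
    refine mul_le_mul_of_nonneg_right ?_ hκ0
    calc ∑ i ∈ Icc 1 j, (j.choose i : ℝ) * ((∑ x ∈ range n, w k Q j u i x : ℕ) : ℝ)
        ≤ ∑ i ∈ Icc 1 j, (j.choose i : ℝ) * ((if i = 1 then A else 0) + D) :=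
          Finset.sum_le_sum fun i hi => mul_le_mul_of_nonneg_left (h3 i hi) (Nat.cast_nonneg _)
      _ = ∑ i ∈ Icc 1 j, (if i = 1 then (j.choose i : ℝ) * A else 0) +
          (∑ i ∈ Icc 1 j, (j.choose i : ℝ)) * D := by
          rw [Finset.sum_mul, ← Finset.sum_add_distrib]
          refine Finset.sum_congr rfl fun i _ => ?_
          split_ifs <;> ring
      _ ≤ j * A + 2 ^ j * D := by
          refine add_le_add ?_ (mul_le_mul_of_nonneg_right ?_ hD0)
          · rw [Finset.sum_ite_eq' (Icc 1 j) 1 (fun i => (j.choose i : ℝ) * A),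
              if_pos (Finset.mem_Icc.2 ⟨le_rfl, hj⟩), Nat.choose_one_right]
          · have := Nat.sum_range_choose j
            calc ∑ i ∈ Icc 1 j, (j.choose i : ℝ) ≤ ∑ i ∈ range (j + 1), (j.choose i : ℝ) := by
                  refine Finset.sum_le_sum_of_subset_of_nonneg ?_ fun i _ _ => Nat.cast_nonneg _
                  intro i hi
                  rw [Finset.mem_range]
                  have := (Finset.mem_Icc.1 hi).2
                  omega
              _ = 2 ^ j := by exact_mod_cast this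
  refine h2.trans (h4.trans (le_of_eq ?_))
  rw [add_mul]
  congr 1
  · obtain ⟨j', rfl⟩ : ∃ j', j = j' + 1 := ⟨j - 1, by omega⟩
    rw [hA, hκ, Nat.add_sub_cancel, div_pow, mul_pow]
    field_simp
    ring
  · rw [hD, hκ, mul_pow]
    have : (4 : ℝ) ^ j = 2 ^ j * 2 ^ j := by rw [← mul_pow]; norm_num
    rw [this]
    field_simp
    ring

end Pool.Agent.V5helper6.RS
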